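import Pool.Agent.J6H63.Cop.Stm

/-!
# Copolymer, module FRAC: fractional moments of the partition function

If the free energy vanishes, the `γ`-th moments of `G 0 ℓ` grow at most like `ℓ ^ 2`.
-/

set_option autoImplicit false

open MeasureTheory ProbabilityTheory Filter Topology
open Cop764

namespace Pool.Agent.J6H75.Cop

open Pool.Agent.J6H63.Cop

/-- layer sum bound of the exponential function -/
theorem exp_layer (α : ℝ) (hα : 0 < α) (A : ℕ) (s : ℝ) :
    Real.exp s ≤ Real.exp 1 + Real.exp 2 * ∑ k ∈ Finset.range A, Real.exp k * max (s - k) 0 +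
      Real.exp (-(α * A)) * Real.exp ((1 + α) * s) := by
  have hsum : 0 ≤ ∑ k ∈ Finset.range A, Real.exp k * max (s - k) 0 :=
    Finset.sum_nonneg fun k _ => mul_nonneg (Real.exp_pos _).le (le_max_right _ _)
  have h1 : 0 ≤ Real.exp 2 * ∑ k ∈ Finset.range A, Real.exp k * max (s - k) 0 :=
    mul_nonneg (Real.exp_pos _).le hsum
  have h2 : 0 ≤ Real.exp (-(α * A)) * Real.exp ((1 + α) * s) := by positivity
  rcases lt_or_ge s 1 with hs | hs
  · have : Real.exp s ≤ Real.exp 1 := Real.exp_le_exp.2 hs.le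
    linarith
  rcases le_or_gt s A with hA | hA
  · have hf : 1 ≤ ⌊s⌋₊ := by
      rw [Nat.one_le_floor_iff]
      exact hs
    have hfA : ⌊s⌋₊ ≤ A := by
      have := Nat.floor_le_floor hA
      rwa [Nat.floor_natCast] at this
    have hle : (⌊s⌋₊ : ℝ) ≤ s := Nat.floor_le (by linarith)
    have hlt : s < ⌊s⌋₊ + 1 := Nat.lt_floor_add_one s
    have hk : ((⌊s⌋₊ - 1 : ℕ) : ℝ) = (⌊s⌋₊ : ℝ) - 1 := by
      rw [Nat.cast_sub hf, Nat.cast_one]
    have hmem : ⌊s⌋₊ - 1 ∈ Finset.range A := Finset.mem_range.2 (by omega)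
    have h3 := Finset.single_le_sum (f := fun k : ℕ => Real.exp k * max (s - k) 0)
      (fun k _ => mul_nonneg (Real.exp_pos _).le (le_max_right _ _)) hmem
    have h4 : Real.exp (((⌊s⌋₊ - 1 : ℕ) : ℝ)) ≤
        Real.exp (((⌊s⌋₊ - 1 : ℕ) : ℝ)) * max (s - ((⌊s⌋₊ - 1 : ℕ) : ℝ)) 0 := by
      apply le_mul_of_one_le_right (Real.exp_pos _).le
      apply le_max_of_le_left
      rw [hk]
      linarith
    have h5 : Real.exp s ≤ Real.exp 2 * Real.exp (((⌊s⌋₊ - 1 : ℕ) : ℝ)) := by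
      rw [← Real.exp_add]
      apply Real.exp_le_exp.2
      rw [hk]
      linarith
    have h6 : Real.exp 2 * Real.exp (((⌊s⌋₊ - 1 : ℕ) : ℝ)) ≤
        Real.exp 2 * ∑ k ∈ Finset.range A, Real.exp k * max (s - k) 0 :=
      mul_le_mul_of_nonneg_left (h4.trans h3) (Real.exp_pos _).le
    have := Real.exp_pos 1
    linarith
  · have h3 : Real.exp s ≤ Real.exp (-(α * A)) * Real.exp ((1 + α) * s) := by
      rw [← Real.exp_add]
      apply Real.exp_le_exp.2
      nlinarith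
    have := Real.exp_pos 1
    linarith

theorem frac : FracT := by
  intro D h hh hf
  obtain ⟨c0, n0, hK⟩ := M_K.J_K D
  obtain ⟨C1, hC1, hEF⟩ := M_EF.J_EF D
  have hc0 := hK.c0_pos
  have hc1 := hK.c0_le
  have hα := hK.alpha_pos
  have hn0 := hK.n0_pos
  have h1α : 0 < 1 + D.α := by linarith
  have hγ : 0 < gam D.α := by
    unfold gam
    positivity
  have hγ1 : gam D.α * (1 + D.α) = 1 := by
    unfold gam
    exact inv_mul_cancel₀ h1α.ne'
  refine ⟨(2 / c0) ^ gam D.α * (Real.exp 1 + 1 + Real.exp 2 * (C1 / D.α + 1)), n0, ?_⟩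
  intro ℓ hℓ
  have hℓ1 : 1 ≤ ℓ := hn0.trans hℓ
  have hℓr : (1 : ℝ) ≤ ℓ := by exact_mod_cast hℓ1
  have hℓ0 : (0 : ℝ) < ℓ := by linarith
  set β : ℝ := Real.log (2 / c0) + (1 + D.α) * Real.log ℓ with hβ
  have hlog1 : 0 ≤ Real.log (2 / c0) := by
    apply Real.log_nonneg
    rw [le_div_iff₀ hc0]
    linarith
  have hβ0 : 0 ≤ β := by
    have := Real.log_nonneg hℓr
    positivity
  -- notation
  set A : ℕ := ⌈C1 * ℓ / D.α⌉₊ with hA
  have hA1 : C1 * ℓ ≤ D.α * A := by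
    have := Nat.le_ceil (C1 * ℓ / D.α)
    rw [div_le_iff₀ hα] at this
    rw [hA]
    linarith
  have hA2 : (A : ℝ) ≤ C1 * ℓ / D.α + 1 := by
    have h0 : 0 ≤ C1 * ℓ / D.α := by positivity
    exact (Nat.ceil_lt_add_one h0).le
  -- the positive parts
  set X : ℕ → (ℕ → ℝ) → ℝ := fun k ω =>
    max (gam D.α * (D.lG h 0 ℓ ω - β) - k) 0 with hX
  have hXeq : ∀ (k : ℕ) (ω : ℕ → ℝ), X k ω = gam D.α *
      max (D.lG h 0 ℓ ω - (Real.log (2 / c0) + (1 + D.α) *
        (Real.log ℓ + Real.log (Real.exp (-(k : ℝ)))⁻¹))) 0 := by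
    intro k ω
    rw [← Real.exp_neg, neg_neg, Real.log_exp, mul_max_of_nonneg _ _ hγ.le, mul_zero]
    simp only [hX]
    congr 1
    rw [hβ]
    have e : gam D.α * (D.lG h 0 ℓ ω - (Real.log (2 / c0) + (1 + D.α) * (Real.log ℓ + k))) =
      gam D.α * (D.lG h 0 ℓ ω - (Real.log (2 / c0) + (1 + D.α) * Real.log ℓ)) -
        gam D.α * (1 + D.α) * k := by ring
    rw [e, hγ1, one_mul]
  have hlG : Integrable (D.lG h 0 ℓ) D.P :=
    (M_int.J_int D c0 n0 hK h hh).2.1 0 ℓ (by omega)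
  have hXint : ∀ k : ℕ, Integrable (X k) D.P := by
    intro k
    exact (((hlG.sub (integrable_const β)).const_mul (gam D.α)).sub
      (integrable_const (k : ℝ))).pos_part
  have hXle : ∀ k : ℕ, ∫ ω, X k ω ∂D.P ≤ Real.exp (-(k : ℝ)) := by
    intro k
    have h1 := M_strE.J_strE D c0 n0 hK h hh ℓ hℓ (Real.exp (-(k : ℝ))) (Real.exp_pos _)
      (Real.exp_le_one_iff.2 (by simp))
    calc ∫ ω, X k ω ∂D.P
        = gam D.α * ∫ ω, max (D.lG h 0 ℓ ω - (Real.log (2 / c0) + (1 + D.α) *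
            (Real.log ℓ + Real.log (Real.exp (-(k : ℝ)))⁻¹))) 0 ∂D.P := by
          rw [← integral_const_mul]
          exact integral_congr_ae (Filter.Eventually.of_forall fun ω => hXeq k ω)
      _ ≤ gam D.α * (ℓ * D.f h + (1 + D.α) * Real.exp (-(k : ℝ))) :=
          mul_le_mul_of_nonneg_left h1 hγ.le
      _ ≤ gam D.α * ((1 + D.α) * Real.exp (-(k : ℝ))) := by
          apply mul_le_mul_of_nonneg_left _ hγ.le
          have : (ℓ : ℝ) * D.f h ≤ 0 := mul_nonpos_of_nonneg_of_nonpos hℓ0.le hf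
          linarith
      _ = Real.exp (-(k : ℝ)) := by rw [← mul_assoc, hγ1, one_mul]
  have hF := hEF h hh 0 ℓ hℓ1
  rw [zero_add] at hF
  -- pointwise bound
  have hpt : ∀ ω : ℕ → ℝ, (G D.K (D.w h ω) 0 ℓ) ^ gam D.α ≤ Real.exp (gam D.α * β) *
      (Real.exp 1 + Real.exp 2 * ∑ k ∈ Finset.range A, Real.exp k * X k ω +
        Real.exp (-(D.α * A)) * F D.K (D.w h ω) 0 ℓ) := by
    intro ω
    have hG0 : 0 < G D.K (D.w h ω) 0 ℓ := by
      have := (M_strE.jE_Glow D c0 n0 hK (D.w h ω) ℓ hℓ 0 1 (by norm_num)).2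
      simpa using this
    have hGF : G D.K (D.w h ω) 0 ℓ ≤ F D.K (D.w h ω) 0 ℓ :=
      (M_Z.J_Z D h ω ℓ).1.trans (M_Z.J_Z D h ω ℓ).2
    have hGe : G D.K (D.w h ω) 0 ℓ = Real.exp (D.lG h 0 ℓ ω) := by
      unfold Data.lG
      rw [Real.exp_log hG0]
    have h1 : (G D.K (D.w h ω) 0 ℓ) ^ gam D.α =
        Real.exp (gam D.α * β) * Real.exp (gam D.α * (D.lG h 0 ℓ ω - β)) := by
      rw [hGe, ← Real.exp_mul, ← Real.exp_add]
      congr 1
      ring
    have h2 := exp_layer D.α hα A (gam D.α * (D.lG h 0 ℓ ω - β))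
    have h3 : Real.exp ((1 + D.α) * (gam D.α * (D.lG h 0 ℓ ω - β))) ≤
        F D.K (D.w h ω) 0 ℓ := by
      refine le_trans ?_ hGF
      rw [hGe]
      apply Real.exp_le_exp.2
      have e : (1 + D.α) * (gam D.α * (D.lG h 0 ℓ ω - β)) =
        gam D.α * (1 + D.α) * (D.lG h 0 ℓ ω - β) := by ring
      rw [e, hγ1]
      linarith
    rw [h1]
    apply mul_le_mul_of_nonneg_left _ (Real.exp_pos _).le
    refine h2.trans ?_
    have h4 : Real.exp (-(D.α * A)) *
        Real.exp ((1 + D.α) * (gam D.α * (D.lG h 0 ℓ ω - β))) ≤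
        Real.exp (-(D.α * A)) * F D.K (D.w h ω) 0 ℓ :=
      mul_le_mul_of_nonneg_left h3 (Real.exp_pos _).le
    simp only [hX]
    linarith
  -- integrate
  have hsumint : Integrable (fun ω => ∑ k ∈ Finset.range A, Real.exp k * X k ω) D.P :=
    integrable_finsetSum _ fun k _ => (hXint k).const_mul _
  have hgint : Integrable (fun ω => Real.exp (gam D.α * β) *
      (Real.exp 1 + Real.exp 2 * ∑ k ∈ Finset.range A, Real.exp k * X k ω +
        Real.exp (-(D.α * A)) * F D.K (D.w h ω) 0 ℓ)) D.P :=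
    (((integrable_const _).add (hsumint.const_mul _)).add (hF.1.const_mul _)).const_mul _
  have hGnn : ∀ ω : ℕ → ℝ, 0 ≤ (G D.K (D.w h ω) 0 ℓ) ^ gam D.α := fun ω =>
    Real.rpow_nonneg ((M_G.J_G D.K (D.w h ω) hK.nonneg).2.1 0 ℓ) _
  have hstep := integral_mono_of_nonneg (μ := D.P)
    (Filter.Eventually.of_forall hGnn) hgint (Filter.Eventually.of_forall hpt)
  refine hstep.trans ?_
  have hval : ∫ ω, Real.exp (gam D.α * β) *
      (Real.exp 1 + Real.exp 2 * ∑ k ∈ Finset.range A, Real.exp k * X k ω +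
        Real.exp (-(D.α * A)) * F D.K (D.w h ω) 0 ℓ) ∂D.P =
      Real.exp (gam D.α * β) * (Real.exp 1 + Real.exp 2 *
        ∑ k ∈ Finset.range A, Real.exp k * ∫ ω, X k ω ∂D.P +
          Real.exp (-(D.α * A)) * ∫ ω, F D.K (D.w h ω) 0 ℓ ∂D.P) := by
    have i1 : Integrable (fun _ : ℕ → ℝ => Real.exp 1) D.P := integrable_const _
    have i2 : Integrable (fun ω : ℕ → ℝ => Real.exp 2 * ∑ k ∈ Finset.range A,
      Real.exp k * X k ω) D.P := hsumint.const_mul _
    have i3 : Integrable (fun ω : ℕ → ℝ => Real.exp 1 + Real.exp 2 * ∑ k ∈ Finset.range A,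
      Real.exp k * X k ω) D.P := i1.add i2
    have i4 : Integrable (fun ω : ℕ → ℝ => Real.exp (-(D.α * A)) * F D.K (D.w h ω) 0 ℓ) D.P :=
      hF.1.const_mul _
    rw [integral_const_mul, integral_add i3 i4, integral_add i1 i2,
      integral_const_mul, integral_const_mul, integral_finsetSum _
      (fun k _ => (hXint k).const_mul _)]
    simp only [integral_const_mul, integral_const, probReal_univ, one_smul]
  rw [hval]
  have hs1 : ∑ k ∈ Finset.range A, Real.exp k * ∫ ω, X k ω ∂D.P ≤ A := by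
    calc ∑ k ∈ Finset.range A, Real.exp k * ∫ ω, X k ω ∂D.P
        ≤ ∑ k ∈ Finset.range A, (1 : ℝ) := by
          apply Finset.sum_le_sum
          intro k _
          calc Real.exp k * ∫ ω, X k ω ∂D.P ≤ Real.exp k * Real.exp (-(k : ℝ)) :=
                mul_le_mul_of_nonneg_left (hXle k) (Real.exp_pos _).le
            _ = 1 := by rw [← Real.exp_add, add_neg_cancel, Real.exp_zero]
      _ = A := by simp
  have hs2 : Real.exp (-(D.α * A)) * ∫ ω, F D.K (D.w h ω) 0 ℓ ∂D.P ≤ 1 := by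
    calc Real.exp (-(D.α * A)) * ∫ ω, F D.K (D.w h ω) 0 ℓ ∂D.P
        ≤ Real.exp (-(D.α * A)) * Real.exp (C1 * ℓ) :=
          mul_le_mul_of_nonneg_left hF.2 (Real.exp_pos _).le
      _ ≤ 1 := by
          rw [← Real.exp_add, Real.exp_le_one_iff]
          linarith
  have hexp : Real.exp (gam D.α * β) = (2 / c0) ^ gam D.α * ℓ := by
    rw [hβ, mul_add, Real.exp_add]
    congr 1
    · rw [Real.rpow_def_of_pos (by positivity), mul_comm]
    · rw [← mul_assoc, hγ1, one_mul, Real.exp_log hℓ0]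
  have hpow : 0 < (2 / c0) ^ gam D.α := Real.rpow_pos_of_pos (by positivity) _
  rw [hexp]
  have he2 := Real.exp_pos 2
  have he1 := Real.exp_pos 1
  have hin : Real.exp 1 + Real.exp 2 *
        ∑ k ∈ Finset.range A, Real.exp k * ∫ ω, X k ω ∂D.P +
          Real.exp (-(D.α * A)) * ∫ ω, F D.K (D.w h ω) 0 ℓ ∂D.P ≤
      (Real.exp 1 + 1 + Real.exp 2 * (C1 / D.α + 1)) * ℓ := by
    have h1 : Real.exp 2 * ∑ k ∈ Finset.range A, Real.exp k * ∫ ω, X k ω ∂D.P ≤
        Real.exp 2 * (C1 * ℓ / D.α + 1) :=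
      mul_le_mul_of_nonneg_left (hs1.trans hA2) he2.le
    have h2 : Real.exp 2 * (C1 * ℓ / D.α + 1) ≤ Real.exp 2 * (C1 / D.α + 1) * ℓ := by
      have e : Real.exp 2 * (C1 / D.α + 1) * ℓ = Real.exp 2 * (C1 * ℓ / D.α + ℓ) := by ring
      rw [e]
      apply mul_le_mul_of_nonneg_left _ he2.le
      linarith
    have h3 : Real.exp 1 + 1 ≤ (Real.exp 1 + 1) * ℓ :=
      le_mul_of_one_le_right (by positivity) hℓr
    have e : (Real.exp 1 + 1 + Real.exp 2 * (C1 / D.α + 1)) * ℓ =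
      (Real.exp 1 + 1) * ℓ + Real.exp 2 * (C1 / D.α + 1) * ℓ := by ring
    rw [e]
    linarith
  calc (2 / c0) ^ gam D.α * ℓ * (Real.exp 1 + Real.exp 2 *
        ∑ k ∈ Finset.range A, Real.exp k * ∫ ω, X k ω ∂D.P +
          Real.exp (-(D.α * A)) * ∫ ω, F D.K (D.w h ω) 0 ℓ ∂D.P)
      ≤ (2 / c0) ^ gam D.α * ℓ * ((Real.exp 1 + 1 + Real.exp 2 * (C1 / D.α + 1)) * ℓ) :=
        mul_le_mul_of_nonneg_left hin (by positivity)
    _ = (2 / c0) ^ gam D.α * (Real.exp 1 + 1 + Real.exp 2 * (C1 / D.α + 1)) * (ℓ : ℝ) ^ 2 := by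
        ring

end Pool.Agent.J6H75.Cop
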