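import Pool.Agent.J6H63.Cop.Stm

/-!
# Copolymer, module SHORT: excursions of small total length have a weight near one
-/

set_option autoImplicit false

open MeasureTheory ProbabilityTheory Filter Topology
open Cop764

namespace Pool.Agent.J6H75.Cop

open Pool.Agent.J6H63.Cop

/-- covariance of the disorder -/
theorem cov (D : Data) (i j : ℕ) : Integrable (fun ω : ℕ → ℝ => ω i * ω j) D.P ∧
    ∫ ω : ℕ → ℝ, ω i * ω j ∂D.P = if i = j then 1 else 0 := by
  have hint : ∀ i : ℕ, Integrable (fun ω : ℕ → ℝ => ω i) D.P := by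
    intro i
    have := M_absS.J_absS_int2 D i (fun x => x ^ 1) (M_absS.J_absS_powx D 1)
    simpa using this
  have h0 : ∀ i : ℕ, ∫ ω : ℕ → ℝ, ω i ∂D.P = 0 := by
    intro i
    rw [M_absS.J_absS_int1 D i (fun x => x) measurable_id]
    exact D.mean
  rcases eq_or_ne i j with rfl | hij
  · rw [if_pos rfl]
    have h1 := M_absS.J_absS_int2 D i (fun x => x ^ 2) (M_absS.J_absS_powx D 2)
    have h2 := M_absS.J_absS_int1 D i (fun x => x ^ 2) (by fun_prop)
    simp only [sq] at h1 h2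
    refine ⟨h1, ?_⟩
    rw [h2]
    have := D.var
    simpa only [sq] using this
  · rw [if_neg hij]
    have hI : IndepFun (fun ω : ℕ → ℝ => ω i) (fun ω : ℕ → ℝ => ω j) D.P :=
      (M_absS.J_absS_iind D).indepFun hij
    refine ⟨hI.integrable_mul (hint i) (hint j), ?_⟩
    rw [hI.integral_fun_mul_eq_mul_integral (hint i).aestronglyMeasurable
      (hint j).aestronglyMeasurable, h0 i, zero_mul]

/-- second moment of a sum of the disorder -/
theorem sec (D : Data) (J : Finset ℕ) : Integrable (fun ω : ℕ → ℝ => (∑ i ∈ J, ω i) ^ 2) D.P ∧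
    ∫ ω : ℕ → ℝ, (∑ i ∈ J, ω i) ^ 2 ∂D.P = J.card := by
  have e : (fun ω : ℕ → ℝ => (∑ i ∈ J, ω i) ^ 2) =
      fun ω : ℕ → ℝ => ∑ i ∈ J, ∑ j ∈ J, ω i * ω j := by
    funext ω
    rw [sq, Finset.sum_mul_sum]
  rw [e]
  constructor
  · exact integrable_finsetSum _ fun i _ => integrable_finsetSum _ fun j _ => (cov D i j).1
  · rw [integral_finsetSum _ fun i _ => integrable_finsetSum _ fun j _ => (cov D i j).1]
    have h1 : ∀ i ∈ J, ∫ ω : ℕ → ℝ, ∑ j ∈ J, ω i * ω j ∂D.P = 1 := by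
      intro i hi
      rw [integral_finsetSum _ fun j _ => (cov D i j).1]
      simp only [(cov D i _).2]
      rw [Finset.sum_ite_eq, if_pos hi]
    rw [Finset.sum_congr rfl h1]
    simp

/-- two-sided bound of the weight of an excursion -/
theorem phi_bd (w : ℕ → ℝ) (i j : ℕ) : Real.exp (S w i j / 2) ≤ phi w i j ∧
    phi w i j ≤ Real.exp (S w i j / 2 + S w i j ^ 2 / 8) := by
  have h1 : phi w i j = Real.exp (S w i j / 2) * Real.cosh (S w i j / 2) := by
    unfold phi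
    have a1 : Real.exp (S w i j / 2) * Real.exp (S w i j / 2) = Real.exp (S w i j) := by
      rw [← Real.exp_add]
      congr 1
      ring
    have a2 : Real.exp (S w i j / 2) * Real.exp (-(S w i j / 2)) = 1 := by
      rw [← Real.exp_add, add_neg_cancel, Real.exp_zero]
    rw [Real.cosh_eq, ← a1, ← a2]
    ring
  have h2 := Real.one_le_cosh (S w i j / 2)
  have h3 := Real.cosh_le_exp_half_sq (S w i j / 2)
  have h4 := Real.exp_pos (S w i j / 2)
  rw [h1]
  refine ⟨le_mul_of_one_le_right h4.le h2, ?_⟩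
  rw [Real.exp_add]
  apply mul_le_mul_of_nonneg_left _ h4.le
  refine h3.trans (Real.exp_le_exp.2 (le_of_eq ?_))
  ring

theorem short : ShortT := by
  intro B ε hε
  refine ⟨min 1 (ε / 4500), by positivity, ?_⟩
  intro lam hl h hh hh2 ι A a n hdisj hsum
  set D : Data := B.dat lam hl with hD
  set s : ℝ := min 1 (ε / 4500) with hs
  have hs0 : 0 < s := by rw [hs]; positivity
  have hs1 : s ≤ 1 := min_le_left _ _
  have hs2 : s ≤ ε / 4500 := min_le_right _ _
  set ℓ : ℝ := ∑ k ∈ A, (n k : ℝ) with hℓ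
  have hℓ0 : 0 ≤ ℓ := Finset.sum_nonneg fun k _ => by positivity
  have hlamℓ : lam ^ 2 * ℓ ≤ s := by
    have h1 : lam ^ 2 * ℓ ≤ lam ^ 2 * (s * lam⁻¹ ^ 2) :=
      mul_le_mul_of_nonneg_left hsum (by positivity)
    have h2 : lam ^ 2 * (s * lam⁻¹ ^ 2) = s := by
      field_simp
    rwa [h2] at h1
  -- the sums of the disorder
  set X : ι → (ℕ → ℝ) → ℝ := fun k ω => ∑ i ∈ Finset.Ioc (a k) (a k + n k), ω i with hX
  have hXs : ∀ k, Integrable (fun ω => X k ω ^ 2) D.P ∧ ∫ ω, X k ω ^ 2 ∂D.P = n k := by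
    intro k
    have := sec D (Finset.Ioc (a k) (a k + n k))
    rw [Nat.card_Ioc, Nat.add_sub_cancel_left] at this
    exact this
  have hpd : (A : Set ι).PairwiseDisjoint fun k => Finset.Ioc (a k) (a k + n k) :=
    fun k hk l hl' hkl => hdisj k hk l hl' hkl
  have hTs : Integrable (fun ω => (∑ k ∈ A, X k ω) ^ 2) D.P ∧
      ∫ ω, (∑ k ∈ A, X k ω) ^ 2 ∂D.P = ℓ := by
    have := sec D (A.biUnion fun k => Finset.Ioc (a k) (a k + n k))
    rw [Finset.card_biUnion (fun k hk l hl' hkl => hdisj k hk l hl' hkl)] at this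
    simp only [Nat.card_Ioc, Nat.add_sub_cancel_left, Finset.sum_biUnion hpd] at this
    rw [Nat.cast_sum] at this
    exact this
  have hSX : ∀ (k : ι) (ω : ℕ → ℝ), S (D.w h ω) (a k) (a k + n k) =
      -2 * lam * (X k ω + h * n k) := by
    intro k ω
    unfold S Data.w
    rw [← Finset.mul_sum, Finset.sum_add_distrib, Finset.sum_const, Nat.card_Ioc,
      Nat.add_sub_cancel_left, nsmul_eq_mul]
    simp only [hX]
    have : D.lam = lam := rfl
    rw [this]
    ring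
  -- the dominating function
  set Ψ : (ℕ → ℝ) → ℝ := fun ω => 900 * lam ^ 2 * (∑ k ∈ A, X k ω) ^ 2 +
    80 * lam ^ 2 * ∑ k ∈ A, X k ω ^ 2 + 880 * lam ^ 2 * h ^ 2 * ℓ ^ 2 with hΨ
  have hΨint : Integrable Ψ D.P := by
    refine ((hTs.1.const_mul _).add ?_).add (integrable_const _)
    exact (integrable_finsetSum _ fun k _ => (hXs k).1).const_mul _
  have hΨval : ∫ ω, Ψ ω ∂D.P ≤ ε := by
    have i1 : Integrable (fun ω => 900 * lam ^ 2 * (∑ k ∈ A, X k ω) ^ 2) D.P := hTs.1.const_mul _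
    have i2 : Integrable (fun ω => 80 * lam ^ 2 * ∑ k ∈ A, X k ω ^ 2) D.P :=
      (integrable_finsetSum _ fun k _ => (hXs k).1).const_mul _
    have i3 : Integrable (fun ω => 900 * lam ^ 2 * (∑ k ∈ A, X k ω) ^ 2 +
      80 * lam ^ 2 * ∑ k ∈ A, X k ω ^ 2) D.P := i1.add i2
    have e : ∫ ω, Ψ ω ∂D.P = 900 * lam ^ 2 * ℓ + 80 * lam ^ 2 * ℓ +
        880 * lam ^ 2 * h ^ 2 * ℓ ^ 2 := by
      simp only [hΨ]
      rw [integral_add i3 (integrable_const _), integral_add i1 i2, integral_const_mul,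
        integral_const_mul, integral_finsetSum _ (fun k _ => (hXs k).1), hTs.2]
      simp only [(hXs _).2, integral_const, probReal_univ, one_smul]
      rw [← hℓ]
    rw [e]
    have h1 : h ^ 2 ≤ 4 * lam ^ 2 := by nlinarith
    have h2 : lam ^ 2 * h ^ 2 * ℓ ^ 2 ≤ 4 * (lam ^ 2 * ℓ) ^ 2 := by
      have h3 : lam ^ 2 * h ^ 2 * ℓ ^ 2 ≤ lam ^ 2 * (4 * lam ^ 2) * ℓ ^ 2 := by
        gcongr
      calc lam ^ 2 * h ^ 2 * ℓ ^ 2 ≤ lam ^ 2 * (4 * lam ^ 2) * ℓ ^ 2 := h3
        _ = 4 * (lam ^ 2 * ℓ) ^ 2 := by ring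
    have h4 : (lam ^ 2 * ℓ) ^ 2 ≤ s := by
      have h5 : 0 ≤ lam ^ 2 * ℓ := by positivity
      nlinarith
    have h6 : 4500 * s ≤ ε := by linarith
    nlinarith
  have hΨnn : ∀ ω, 0 ≤ Ψ ω := by
    intro ω
    have : 0 ≤ ∑ k ∈ A, X k ω ^ 2 := Finset.sum_nonneg fun k _ => sq_nonneg _
    simp only [hΨ]
    positivity
  -- pointwise
  have hgood : ∀ ω, Ψ ω < 1 → 9 / 10 ≤ ∏ k ∈ A, phi (D.w h ω) (a k) (a k + n k) ∧
        ∏ k ∈ A, phi (D.w h ω) (a k) (a k + n k) ≤ 11 / 10 ∧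
        |lam * ∑ k ∈ A, ∑ i ∈ Finset.Ioc (a k) (a k + n k), ω i| ≤ 1 / 10 := by
    intro ω hω
    simp only [hΨ] at hω
    have hq : 0 ≤ ∑ k ∈ A, X k ω ^ 2 := Finset.sum_nonneg fun k _ => sq_nonneg _
    have p1 : 0 ≤ lam ^ 2 * (∑ k ∈ A, X k ω) ^ 2 := by positivity
    have p2 : 0 ≤ lam ^ 2 * ∑ k ∈ A, X k ω ^ 2 := by positivity
    have p3 : 0 ≤ lam ^ 2 * h ^ 2 * ℓ ^ 2 := by positivity
    have hU : ∑ k ∈ A, S (D.w h ω) (a k) (a k + n k) =
        -2 * lam * (∑ k ∈ A, X k ω + h * ℓ) := by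
      simp only [hSX]
      rw [← Finset.mul_sum, Finset.sum_add_distrib, ← Finset.mul_sum]
    have hU2 : (∑ k ∈ A, S (D.w h ω) (a k) (a k + n k)) ^ 2 ≤ 1 / 100 := by
      rw [hU]
      nlinarith [sq_nonneg (lam * (∑ k ∈ A, X k ω - h * ℓ))]
    have hn2 : ∑ k ∈ A, (n k : ℝ) ^ 2 ≤ ℓ ^ 2 := by
      rw [sq ℓ, hℓ, Finset.sum_mul]
      apply Finset.sum_le_sum
      intro k hk
      rw [sq]
      apply mul_le_mul_of_nonneg_left _ (Nat.cast_nonneg _)
      exact Finset.single_le_sum (f := fun k => (n k : ℝ)) (fun k _ => Nat.cast_nonneg _) hk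
    have hV : ∑ k ∈ A, S (D.w h ω) (a k) (a k + n k) ^ 2 ≤ 1 / 10 := by
      have h1 : ∑ k ∈ A, S (D.w h ω) (a k) (a k + n k) ^ 2 ≤
          ∑ k ∈ A, (8 * lam ^ 2 * X k ω ^ 2 + 8 * lam ^ 2 * h ^ 2 * (n k : ℝ) ^ 2) := by
        apply Finset.sum_le_sum
        intro k _
        rw [hSX]
        nlinarith [sq_nonneg (lam * (X k ω - h * n k))]
      rw [Finset.sum_add_distrib, ← Finset.mul_sum, ← Finset.mul_sum] at h1
      have h2 : 8 * lam ^ 2 * h ^ 2 * ∑ k ∈ A, (n k : ℝ) ^ 2 ≤ 8 * lam ^ 2 * h ^ 2 * ℓ ^ 2 :=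
        mul_le_mul_of_nonneg_left hn2 (by positivity)
      nlinarith
    have hUabs : |∑ k ∈ A, S (D.w h ω) (a k) (a k + n k)| ≤ 1 / 10 := by
      apply abs_le_of_sq_le_sq _ (by norm_num)
      linarith
    have hU3 := abs_le.1 hUabs
    refine ⟨?_, ?_, ?_⟩
    · have h1 : Real.exp (∑ k ∈ A, S (D.w h ω) (a k) (a k + n k) / 2) ≤
          ∏ k ∈ A, phi (D.w h ω) (a k) (a k + n k) := by
        rw [Real.exp_sum]
        exact Finset.prod_le_prod (fun k _ => (Real.exp_pos _).le) fun k _ => (phi_bd _ _ _).1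
      refine le_trans ?_ h1
      rw [← Finset.sum_div]
      have := Real.add_one_le_exp ((∑ k ∈ A, S (D.w h ω) (a k) (a k + n k)) / 2)
      linarith
    · have h1 : ∏ k ∈ A, phi (D.w h ω) (a k) (a k + n k) ≤
          Real.exp (∑ k ∈ A, (S (D.w h ω) (a k) (a k + n k) / 2 +
            S (D.w h ω) (a k) (a k + n k) ^ 2 / 8)) := by
        rw [Real.exp_sum]
        exact Finset.prod_le_prod
          (fun k _ => (Real.exp_pos _).le.trans (phi_bd _ _ _).1) fun k _ => (phi_bd _ _ _).2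
      refine h1.trans ?_
      rw [Finset.sum_add_distrib, ← Finset.sum_div, ← Finset.sum_div]
      have h2 : Real.exp ((∑ k ∈ A, S (D.w h ω) (a k) (a k + n k)) / 2 +
          (∑ k ∈ A, S (D.w h ω) (a k) (a k + n k) ^ 2) / 8) ≤ Real.exp (1 / 15) := by
        apply Real.exp_le_exp.2
        linarith
      refine h2.trans ?_
      have h3 := Real.one_sub_le_exp_neg (1 / 15)
      have h4 : Real.exp (1 / 15) * Real.exp (-(1 / 15)) = 1 := by
        rw [← Real.exp_add, add_neg_cancel, Real.exp_zero]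
      have h5 := Real.exp_pos (1 / 15)
      nlinarith
    · apply abs_le_of_sq_le_sq _ (by norm_num)
      simp only [hX] at p1 p2 hω
      rw [mul_pow]
      linarith
  -- Markov
  have hM := mul_meas_ge_le_integral_of_nonneg (μ := D.P)
    (Filter.Eventually.of_forall hΨnn) hΨint 1
  rw [one_mul] at hM
  have hΨm : NullMeasurableSet {ω | 1 ≤ Ψ ω} D.P :=
    nullMeasurableSet_le aemeasurable_const hΨint.aemeasurable
  have hc := probReal_compl_eq_one_sub₀ hΨm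
  have hsub : {ω | 1 ≤ Ψ ω}ᶜ ⊆ {ω : ℕ → ℝ |
        9 / 10 ≤ ∏ k ∈ A, phi (D.w h ω) (a k) (a k + n k) ∧
        ∏ k ∈ A, phi (D.w h ω) (a k) (a k + n k) ≤ 11 / 10 ∧
        |lam * ∑ k ∈ A, ∑ i ∈ Finset.Ioc (a k) (a k + n k), ω i| ≤ 1 / 10} := by
    intro ω hω
    simp only [Set.mem_compl_iff, Set.mem_ofPred_eq, not_le] at hω
    exact hgood ω hω
  have hmono := measureReal_mono (μ := D.P) hsub
  have hP : D.P = disorder B.ν := rfl
  rw [← hP]
  linarith

end Pool.Agent.J6H75.Cop
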